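import Pool.Agent.N353.Roots.Rel

set_option autoImplicit false

namespace Pool.Agent.Results.MP_7685df_co.AlmostAllRoots

open Filter

/-- the matroids on an `m`-element ground set -/
abbrev Labelled (m : ℕ) : Type := {M : Matroid (Fin m) // M.E = Set.univ}

/-- `F_i`: the number of independent sets with `i` elements -/
noncomputable def numIndep {m : ℕ} (M : Matroid (Fin m)) (i : ℕ) : ℕ :=
  Nat.card {I : Finset (Fin m) // M.Indep (I : Set (Fin m)) ∧ I.card = i}

/-- the reliability polynomial (`F_i = 0` for `i` larger than the rank) -/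
noncomputable def Rel {m : ℕ} (M : Matroid (Fin m)) (q : ℂ) : ℂ :=
  ∑ i ∈ Finset.range (m + 1), (numIndep M i : ℂ) * q ^ i * (1 - q) ^ (m - i)

/-- almost all matroids have all their reliability roots in the open unit disk, the root `1`
excepted; in particular all roots lie in the closed unit disk -/
theorem result :
    Tendsto (fun m : ℕ =>
      (Nat.card {M : Labelled m // ∀ q : ℂ, Rel M.1 q = 0 → ‖q‖ < 1 ∨ q = 1} : ℝ) /
        (Nat.card (Labelled m) : ℝ))
      atTop (nhds 1) := by
  refine (Pool.Agent.N353.Star.transfer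
    (fun m M => ∀ q : ℂ, Rel M q = 0 → ‖q‖ < 1 ∨ q = 1) (1 / 30000) (by norm_num) ?_).1
  filter_upwards [eventually_ge_atTop 400] with m hm M r hr hB hG q hq
  exact Pool.Agent.N353.Roots.roots_good hm hr M hB hG q hq

end Pool.Agent.Results.MP_7685df_co.AlmostAllRoots
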